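import Pool.Agent.MP_344049_nt.rz.Main
import Pool.Agent.MP_344049_nt.gap.Lift4

/-! Consecutive Ruzsa numbers differ by at most 67. The input is the bound 90 for every modulus. -/

set_option autoImplicit false

open Finset

namespace Pool.Agent.Results.MP_344049_nt.UniformBound

theorem result (R : ℕ → ℕ)
    (hR : ∀ m, 1 ≤ m → IsLeast {r : ℕ | 0 < r ∧ ∃ A : Finset (ZMod m), ∀ n : ZMod m,
      1 ≤ ((A ×ˢ A).filter fun q => q.1 + q.2 = n).card ∧
      ((A ×ˢ A).filter fun q => q.1 + q.2 = n).card ≤ r} (R m))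
    (m : ℕ) (hm : 1 ≤ m) : |(R (m + 1) : ℤ) - R m| ≤ 67 := by
  have h := Pool.Agent.MP_344049_nt.gap.gap_bound _ (fun _ => rfl) 90
    Pool.Agent.MP_344049_nt.RZ.bound m hm
  rw [(hR m hm).csInf_eq, (hR (m + 1) (by omega)).csInf_eq] at h
  have h2 := h.2
  omega

end Pool.Agent.Results.MP_344049_nt.UniformBound
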